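import Pool.Agent.R195.CF.Gap

/-!
# MP_41c62e: the dimension spectrum of `{1, q, q^2, ...}` is nowhere dense above `log 2 / (2 log q)`

For every `q ≥ 2` the set `DS(P_q^*)` is nowhere dense in `(log 2 / (2 log q), ∞)`, in particular
(Q1) in `(log 2 / (2 log q), μ^1)` for every `q ≥ 3`.
-/

set_option autoImplicit false

open Filter Topology Set

namespace Pool.Agent.Results.MP_41c62e_nt.NowhereDenseSpectrum

/-- The finite continued fraction `[a 0, …, a (n-1)] = 1/(a 0 + 1/(a 1 + ⋯ + 1/a (n-1)))`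
(and `0` for `n = 0`). -/
noncomputable def fcf : ℕ → (ℕ → ℕ) → ℝ
  | 0, _ => 0
  | n + 1, a => 1 / ((a 0 : ℝ) + fcf n (fun k => a (k + 1)))

/-- `J_A`: the irrationals `x ∈ (0,1)` with `x = [a 0, a 1, a 2, …]`, all `a i ∈ A`. -/
def J (A : Set ℕ) : Set ℝ :=
  {x | Irrational x ∧ x ∈ Ioo (0 : ℝ) 1 ∧
    ∃ a : ℕ → ℕ, (∀ i, a i ∈ A) ∧ Tendsto (fun n => fcf n a) atTop (𝓝 x)}

/-- The dimension spectrum `DS(A) = {dim_H J_B : B ⊆ A}`. -/
noncomputable def DS (A : Set ℕ) : Set ℝ := {d | ∃ B ⊆ A, d = (dimH (J B)).toReal}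

/-- `P_q^* = {q^n : n ≥ 1} ∪ {1}`. -/
def Pstar (q : ℕ) : Set ℕ := {m | ∃ n : ℕ, 1 ≤ n ∧ m = q ^ n} ∪ {1}

/-- `μ^1 = dim_H J_{P_q^* \ {q}}`. -/
noncomputable def mu1 (q : ℕ) : ℝ := (dimH (J (Pstar q \ {q}))).toReal

/-- `S` is nowhere dense in `U`: `S ∩ U` is dense in no nonempty open subinterval of `U`. -/
def NowhereDenseIn (S U : Set ℝ) : Prop :=
  ∀ c d : ℝ, c < d → Ioo c d ⊆ U → ¬ (Ioo c d ⊆ closure (S ∩ U))

open R195.CF H313R3.BK

theorem fcf_eq : ∀ (n : ℕ) (a : ℕ → ℕ), fcf n a = ap n a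
  | 0, _ => rfl
  | n + 1, a => by
    show 1 / ((a 0 : ℝ) + fcf n (fun k => a (k + 1))) = 1 / ((a 0 : ℝ) + ap n (sh a))
    rw [fcf_eq n]
    rfl

theorem mem_Pstar (q m : ℕ) : m ∈ Pstar q ↔ ∃ l : ℕ, m = q ^ l := by
  constructor
  · rintro (⟨n, _, h⟩ | h)
    · exact ⟨n, h⟩
    · exact ⟨0, by simpa using h⟩
  · rintro ⟨l, rfl⟩
    rcases Nat.eq_zero_or_pos l with rfl | h
    · exact Or.inr (by simp)
    · exact Or.inl ⟨l, h, rfl⟩

theorem J_eq {q : ℕ} (hq : 2 ≤ q) (B : Set ℕ) (hB : B ⊆ Pstar q) :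
    J B = JJ (pw q) {l | q ^ l ∈ B} := by
  have hpos : ∀ m ∈ B, 1 ≤ m := by
    intro m hm
    obtain ⟨l, rfl⟩ := (mem_Pstar q m).1 (hB hm)
    exact Nat.one_le_pow _ _ (by omega)
  ext x
  constructor
  · rintro ⟨_, _, a, ha, hlim⟩
    have h1 : ∀ i, ∃ l, a i = q ^ l := fun i => (mem_Pstar q (a i)).1 (hB (ha i))
    choose l hl using h1
    have h2 : (fun i => pw q (l i)) = a := by
      funext i
      exact (hl i).symm
    refine ⟨l, fun i => ?_, ?_⟩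
    · show q ^ l i ∈ B
      rw [← hl i]; exact ha i
    · rw [h2]
      have h3 : (fun n => fcf n a) = fun n => ap n a := funext (fun n => fcf_eq n a)
      rw [h3] at hlim
      exact tendsto_nhds_unique hlim (cf_tendsto a (fun i => hpos _ (ha i)))
  · rintro ⟨l, hl, rfl⟩
    have h1 : ∀ i, 1 ≤ (fun i => pw q (l i)) i := fun i => pw_pos hq _
    refine ⟨irrational_cf _ h1, ⟨cf_pos _ h1, cf_lt_one _ h1⟩, fun i => pw q (l i), hl, ?_⟩
    have h3 : (fun n => fcf n (fun i => pw q (l i))) = fun n => ap n (fun i => pw q (l i)) :=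
      funext (fun n => fcf_eq n _)
    rw [h3]
    exact cf_tendsto _ h1

theorem main {q : ℕ} (hq : 2 ≤ q) :
    NowhereDenseIn (DS (Pstar q)) (Ioi (Real.log 2 / (2 * Real.log q))) := by
  intro c d hcd hsub hcl
  have hx : Real.log 2 / (2 * Real.log q) < (2 * c + d) / 3 :=
    hsub ⟨by linarith, by linarith⟩
  obtain ⟨x', y', h1, h2, h3, h4⟩ := nowhere hq ((2 * c + d) / 3) ((c + 2 * d) / 3) hx (by linarith)
  have hm : (x' + y') / 2 ∈ closure (DS (Pstar q) ∩ Ioi (Real.log 2 / (2 * Real.log q))) :=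
    hcl ⟨by linarith, by linarith⟩
  rw [mem_closure_iff] at hm
  obtain ⟨z, hz, ⟨B, hB, hzB⟩, _⟩ := hm (Ioo x' y') isOpen_Ioo ⟨by linarith, by linarith⟩
  apply h4 {l | q ^ l ∈ B}
  have e1 : dm q {l | q ^ l ∈ B} = z := by
    rw [hzB, J_eq hq B hB]
    rfl
  rw [e1]
  exact hz

/-- For every `q ≥ 2`, `DS(P_q^*)` is nowhere dense in `(log 2 / (2 log q), ∞)`; in particular, for
every `q ≥ 3`, it is nowhere dense in `(log 2 / (2 log q), μ^1)`. -/
theorem result :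
    (∀ q : ℕ, 2 ≤ q → NowhereDenseIn (DS (Pstar q)) (Ioi (Real.log 2 / (2 * Real.log q)))) ∧
    (∀ q : ℕ, 3 ≤ q →
      NowhereDenseIn (DS (Pstar q)) (Ioo (Real.log 2 / (2 * Real.log q)) (mu1 q))) := by
  refine ⟨fun q hq => main hq, fun q hq c d hcd hsub hcl => ?_⟩
  refine main (q := q) (by omega) c d hcd (hsub.trans Ioo_subset_Ioi_self) (hcl.trans ?_)
  exact closure_mono (inter_subset_inter_right _ Ioo_subset_Ioi_self)

end Pool.Agent.Results.MP_41c62e_nt.NowhereDenseSpectrum
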